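import Mathlib
import Pool.Agent.H22.ElemPro

set_option autoImplicit false

namespace Pool.Agent.Results.MP_6e5331_al.NotElemClosure

open FirstOrder FirstOrder.Language

universe u

/-- The function symbols of the language of groups. -/
inductive GrpFn : ℕ → Type
  | one : GrpFn 0
  | inv : GrpFn 1
  | mul : GrpFn 2

/-- The first-order language of groups. -/
def grpLang : Language := ⟨GrpFn, fun _ => Empty⟩

/-- A group as a structure in the language of groups. -/
def grpStr (G : Type u) [Group G] : grpLang.Structure G where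
  funMap := fun {_} f v => match f, v with
    | GrpFn.one, _ => 1
    | GrpFn.inv, v => (v 0)⁻¹
    | GrpFn.mul, v => v 0 * v 1
  RelMap := fun r _ => r.elim

/-- The group G satisfies the sentence. -/
def Sat (G : Type u) [Group G] (φ : grpLang.Sentence) : Prop :=
  @Sentence.Realize grpLang G (grpStr G) φ

def BiInv {G : Type u} [Group G] (r : G → G → Prop) : Prop :=
  ∀ a b x y : G, r a b → r (x * a * y) (x * b * y)

def Orderable (G : Type u) [Group G] : Prop :=
  ∃ s : G → G → Prop, IsLinearOrder G s ∧ BiInv s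

def ProOrderable (G : Type u) [Group G] : Prop :=
  ∀ r : G → G → Prop, IsPartialOrder G r → BiInv r →
    ∃ s : G → G → Prop, IsLinearOrder G s ∧ BiInv s ∧ ∀ a b, r a b → s a b

open Pool.Agent.H22.ElemPro

section Syn

variable {α : Type}

def tOne : grpLang.Term α := Term.func GrpFn.one ![]
def tInv (a : grpLang.Term α) : grpLang.Term α := Term.func GrpFn.inv ![a]
def tMul (a b : grpLang.Term α) : grpLang.Term α := Term.func GrpFn.mul ![a, b]
def tConj (x a : grpLang.Term α) : grpLang.Term α := tMul (tMul x a) (tInv x)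

noncomputable def fP (d c g h w : grpLang.Term α) : grpLang.Formula α :=
  Formula.iExs Unit (Term.equal (tConj (d.relabel Sum.inl) (w.relabel Sum.inl))
    (tMul (tMul (tConj (Term.var (Sum.inr ())) (c.relabel Sum.inl)) (w.relabel Sum.inl))
      (w.relabel Sum.inl))) ⊓
  (Term.equal (tMul w g) (tMul g w) ⊓ Term.equal (tMul w h) (tMul h w))

noncomputable def fQ (w : grpLang.Term (α ⊕ Fin 7)) : grpLang.Formula (α ⊕ Fin 7) :=
  fP (Term.var (Sum.inr 0)) (Term.var (Sum.inr 1)) (Term.var (Sum.inr 2)) (Term.var (Sum.inr 3)) w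

noncomputable def fR (w : grpLang.Term ((α ⊕ Fin 7) ⊕ Fin 2)) :
    grpLang.Formula ((α ⊕ Fin 7) ⊕ Fin 2) :=
  fP (Term.var (Sum.inl (Sum.inr 0))) (Term.var (Sum.inl (Sum.inr 1)))
    (Term.var (Sum.inl (Sum.inr 2))) (Term.var (Sum.inl (Sum.inr 3))) w

noncomputable def psiS : grpLang.Sentence :=
  Formula.iExs (Fin 7) (
    Formula.iAlls (Fin 2) (
      ((fR (Term.var (Sum.inr 0))).imp ((fR (Term.var (Sum.inr 1))).imp
        (fR (tMul (Term.var (Sum.inr 0)) (Term.var (Sum.inr 1)))))) ⊓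
      ((fR (Term.var (Sum.inr 0))).imp
        (fR (tConj (Term.var (Sum.inr 1)) (Term.var (Sum.inr 0)))))) ⊓
    ((fQ tOne).not ⊓
    (fQ (tMul (tConj (Term.var (Sum.inr 4)) (Term.var (Sum.inr 2)))
      (tConj (Term.var (Sum.inr 5)) (Term.var (Sum.inr 2)))) ⊓
    fQ (tInv (tMul (tConj (Term.var (Sum.inr 6)) (Term.var (Sum.inr 2)))
      (tConj (Term.var (Sum.inr 5)) (Term.var (Sum.inr 2))))))))

variable {H : Type u} [Group H]

theorem r_one (v : α → H) : @Term.realize grpLang H (grpStr H) α v tOne = 1 := rfl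
theorem r_inv (v : α → H) (a : grpLang.Term α) : @Term.realize grpLang H (grpStr H) α v (tInv a) =
    (@Term.realize grpLang H (grpStr H) α v a)⁻¹ := rfl
theorem r_mul (v : α → H) (a b : grpLang.Term α) :
    @Term.realize grpLang H (grpStr H) α v (tMul a b) =
    @Term.realize grpLang H (grpStr H) α v a * @Term.realize grpLang H (grpStr H) α v b := rfl

theorem r_fP (v : α → H) (d c g h w : grpLang.Term α) :
    @Formula.Realize grpLang H (grpStr H) α (fP d c g h w) v ↔
      Pp (@Term.realize grpLang H (grpStr H) α v d) (@Term.realize grpLang H (grpStr H) α v c)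
        (@Term.realize grpLang H (grpStr H) α v g) (@Term.realize grpLang H (grpStr H) α v h)
        (@Term.realize grpLang H (grpStr H) α v w) := by
  letI := grpStr H
  simp only [fP, Pp, tConj, Formula.realize_inf, Formula.realize_iExs, Formula.realize_equal, r_mul,
    r_inv, Term.realize_relabel, Sum.elim_comp_inl, Term.realize_var, Sum.elim_inr]
  exact and_congr ⟨fun ⟨i, h⟩ => ⟨i (), h⟩, fun ⟨x, h⟩ => ⟨fun _ => x, h⟩⟩ Iff.rfl

theorem sat_psi : Sat H psiS ↔ Psi H := by
  letI := grpStr H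
  simp only [Sat, Sentence.Realize, psiS, fQ, fR, tConj, Formula.realize_inf, Formula.realize_iExs,
    Formula.realize_iAlls, Formula.realize_imp, Formula.realize_not, r_fP, r_mul, r_inv, r_one,
    Term.realize_var, Sum.elim_inr, Sum.elim_inl, Psi]
  constructor
  · rintro ⟨i, h1, h2⟩
    exact ⟨i 0, i 1, i 2, i 3, i 4, i 5, i 6, fun v w => h1 ![v, w], h2⟩
  · rintro ⟨d, c, g, h, x, y, z, h1, h2⟩
    exact ⟨![d, c, g, h, x, y, z], fun i => h1 (i 0) (i 1), h2⟩

end Syn

theorem cone_order {H : Type u} [Group H] (P : H → Prop) (h1 : ∀ a b, P a → P b → P (a * b))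
    (h2 : ∀ a x, P a → P (x * a * x⁻¹)) (h3 : ¬ P 1) :
    IsPartialOrder H (fun a b => a = b ∨ P (a⁻¹ * b)) ∧ BiInv fun a b => a = b ∨ P (a⁻¹ * b) := by
  refine ⟨{ refl := fun _ => Or.inl rfl, trans := ?_, antisymm := ?_ }, ?_⟩
  · rintro a b c (rfl | h) (rfl | h')
    · exact Or.inl rfl
    · exact Or.inr h'
    · exact Or.inr h
    · exact Or.inr (by simpa [mul_assoc] using h1 _ _ h h')
  · rintro a b (rfl | h) (h' | h')
    · rfl
    · rfl
    · exact h'.symm
    · exact absurd (by simpa [mul_assoc] using h1 _ _ h h') h3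
  · rintro a b x y (rfl | h)
    · exact Or.inl rfl
    · exact Or.inr (by simpa [mul_assoc] using h2 _ y⁻¹ h)

theorem not_psi {H : Type u} [Group H] (hH : ProOrderable H) : ¬ Psi H := by
  rintro ⟨d, c, g, h, x, y, z, h1, h2, h3, h4⟩
  obtain ⟨p1, p2⟩ := cone_order (Pp d c g h) (fun a b => (h1 a b).1) (fun a b => (h1 a b).2) h2
  obtain ⟨s, hs, hb, hr⟩ := hH _ p1 p2
  have a1 := hr 1 (x * g * x⁻¹ * (y * g * y⁻¹)) (Or.inr (by simpa using h3))
  have a2 := hr (z * g * z⁻¹ * (y * g * y⁻¹)) 1 (Or.inr (by simpa using h4))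
  rcases hs.total 1 g with t | t
  · have b1 := hb _ _ z (z⁻¹ * (y * g * y⁻¹)) t
    have b2 := hb _ _ y y⁻¹ t
    simp only [mul_one, mul_inv_cancel, mul_inv_cancel_left, ← mul_assoc z⁻¹] at b1 b2
    rw [← mul_assoc (z * g)] at b1
    have e := hs.antisymm _ _ a2 (hs.trans _ _ _ b2 (by simpa [mul_assoc] using b1))
    rw [e, inv_one] at h4
    exact h2 h4
  · have b1 := hb _ _ x (x⁻¹ * (y * g * y⁻¹)) t
    have b2 := hb _ _ y y⁻¹ t
    simp only [mul_one, mul_inv_cancel] at b2
    have e := hs.antisymm _ _ a1 (hs.trans _ (y * g * y⁻¹) _ (by simpa [mul_assoc] using b1) b2)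
    rw [← e] at h3
    exact h2 h3

theorem result : ∃ (G : Type) (_ : Group G) (φ : grpLang.Sentence), Orderable G ∧
    (∀ (H : Type u) [Group H], ProOrderable H → Sat H φ) ∧ ¬ Sat G φ := by
  refine ⟨Gq, inferInstance, psiS.not, ?_, fun H _ hH => ?_, fun h => ?_⟩
  · obtain ⟨p1, p2⟩ := cone_order (· ∈ Q) (fun _ _ => Q_mul) (fun _ x h => Q_conj h x) Q_one
    refine ⟨_, { p1 with total := fun a b => ?_ }, p2⟩
    by_cases h : a = b
    · exact Or.inl (Or.inl h)
    · rcases Q_total (a := a⁻¹ * b) (fun h' => h (inv_mul_eq_one.1 h')) with h' | h'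
      · exact Or.inl (Or.inr h')
      · exact Or.inr (Or.inr (by simpa using h'))
  · exact fun h => not_psi hH (sat_psi.1 h)
  · exact h (sat_psi.2 psi)

end Pool.Agent.Results.MP_6e5331_al.NotElemClosure
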